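import Pool.Agent.H143R3.BT.Stmts

/-! Task BT-Step of project H143-BT (MP_b41181_pr): one step of the recursion. -/

set_option autoImplicit false

namespace Pool.Agent.H719R4.BT

open MeasureTheory ProbabilityTheory Filter Topology Pool.Agent.H143R3.BT
open scoped ENNReal NNReal

universe u v

lemma cat_self (s : ℝ≥0) (x : ℝ≥0 → ℝ) : cat s (stp s x) (shf s x) = x := by
  funext u
  unfold cat stp shf
  by_cases h : u ≤ s
  · rw [if_pos h, min_eq_left h]
  · rw [if_neg h, min_self]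
    have h2 : s + (u - s) = u := add_tsub_cancel_of_le (le_of_lt (not_le.1 h))
    rw [h2]
    ring

lemma cat_stp (s : ℝ≥0) (x z : ℝ≥0 → ℝ) : cat s (stp s x) z = cat s x z := by
  funext u
  unfold cat stp
  by_cases h : u ≤ s
  · rw [if_pos h, if_pos h, min_eq_left h]
  · rw [if_neg h, if_neg h, min_self]

lemma tq_le (s : ℝ≥0) (p : ℕ × ℕ) : tq s p ≤ s := by
  unfold tq
  calc s * min ((p.1 : ℝ≥0) / (p.2 + 1)) 1 ≤ s * 1 := by gcongr; exact min_le_right _ _
    _ = s := mul_one s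

lemma sp_stp (s : ℝ≥0) (x : ℝ≥0 → ℝ) : sp s (stp s x) = sp s x := by
  unfold sp stp
  congr 1
  funext p
  rw [min_eq_left (tq_le s p)]

lemma nrm_stp (s : ℝ≥0) (x : ℝ≥0 → ℝ) : nrm s (stp s x) = nrm s x := by
  unfold nrm
  have h : (fun u => -stp s x u) = stp s (fun u => -x u) := rfl
  rw [h, sp_stp, sp_stp]

lemma measurable_cat (s : ℝ≥0) :
    Measurable (fun p : (ℝ≥0 → ℝ) × (ℝ≥0 → ℝ) => cat s p.1 p.2) := by
  refine measurable_pi_iff.2 fun u => ?_
  unfold cat
  by_cases h : u ≤ s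
  · simp only [h, if_true]
    exact (measurable_pi_apply u).comp measurable_fst
  · simp only [h, if_false]
    exact ((measurable_pi_apply s).comp measurable_fst).add
      ((measurable_pi_apply (u - s)).comp measurable_snd)

lemma measurable_shf (s : ℝ≥0) : Measurable (fun x : ℝ≥0 → ℝ => shf s x) := by
  refine measurable_pi_iff.2 fun u => ?_
  unfold shf
  exact (measurable_pi_apply (s + u)).sub (measurable_pi_apply s)

theorem taskStep : TaskStep.{u, v} := by
  intro hMv _ hI hC hL hU hG lam hlam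
  obtain ⟨CC, hCC, hC⟩ := hC
  obtain ⟨cL, hcL, hL⟩ := hL
  obtain ⟨CU, hCU, hU⟩ := hU
  have hlam' : (0 : ℝ) < lam := by exact_mod_cast hlam
  set K : ℝ := CC + lam * (2 + CU) with hK
  have hK0 : 0 < K := by positivity
  set k : ℝ := 1 / (lam * cL) with hk
  have hk0 : 0 < k := by positivity
  refine ⟨k * K, by positivity, ?_⟩
  intro Ω _ P _ X Ω' _ P' _ W hX hW t s s' R ht hss' hs't hs hR
  obtain ⟨hBMs, hInd⟩ := hI Ω P X hX s
  have hst : s ≤ t := hss'.trans hs't
  have ht0 : 0 < t := lt_of_lt_of_le one_pos ht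
  have ht0' : (0 : ℝ) < t := by exact_mod_cast ht0
  have hsqt : 0 < √(t : ℝ) := Real.sqrt_pos.2 ht0'
  have hcoe : ((t - s : ℝ≥0) : ℝ) = (t : ℝ) - s := NNReal.coe_sub hst
  have hts0 : (0 : ℝ) ≤ (t : ℝ) - s := by rw [← hcoe]; exact NNReal.coe_nonneg _
  have hGm : Measurable (H P' W t) := (hMv Ω' P' W hW t).1
  have hNm : ∀ r, Measurable (nrm r) := fun r => (hMv Ω' P' W hW r).2.2.1
  have hLUB : ∀ (r : ℝ≥0) (x : ℝ≥0 → ℝ), Continuous x → IsLUB (x '' Set.Iic r) (sp r x) :=
    fun r => (hMv Ω' P' W hW r).2.2.2.2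
  have hnn : ∀ (r : ℝ≥0) (x : ℝ≥0 → ℝ), Continuous x → x 0 = 0 → 0 ≤ nrm r x := by
    intro r x hx hx0
    refine le_max_of_le_left ?_
    have h1 := (hLUB r x hx).1 ⟨0, by simp, rfl⟩
    rwa [hx0] at h1
  have hmono : ∀ (x : ℝ≥0 → ℝ), Continuous x → nrm s x ≤ nrm s' x := by
    intro x hx
    unfold nrm
    exact max_le_max
      ((hLUB s x hx).mono (hLUB s' x hx) (Set.image_mono (Set.Iic_subset_Iic.2 hss')))
      ((hLUB s _ hx.neg).mono (hLUB s' _ hx.neg) (Set.image_mono (Set.Iic_subset_Iic.2 hss')))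
  have hXm : Measurable (fun ω => (fun r => X r ω)) := measurable_pi_iff.2 hX.meas
  -- the quantity in the bound
  set q : (ℝ≥0 → ℝ) → ℝ := fun y => R * (R + nrm s y + √((t : ℝ) - s)) / √(t : ℝ) with hq
  set bb : (ℝ≥0 → ℝ) → ℝ := fun y => 1 + ((t : ℝ) - s) / R ^ 2 + q y with hbb
  have hqm : Measurable q := by
    rw [hq]
    exact (((measurable_const.add (hNm s)).add measurable_const).const_mul R).div_const _
  have hbbm : Measurable bb := by
    rw [hbb]
    exact measurable_const.add hqm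
  have hqstp : ∀ x, q (stp s x) = q x := by
    intro x
    simp only [hq, nrm_stp]
  have hbbstp : ∀ x, bb (stp s x) = bb x := by
    intro x
    simp only [hbb, hqstp]
  have hq0 : ∀ x : ℝ≥0 → ℝ, Continuous x → x 0 = 0 → 0 ≤ q x := by
    intro x hx hx0
    have h1 := hnn s x hx hx0
    simp only [hq]
    positivity
  set G : (ℝ≥0 → ℝ) → ℝ := H P' W t with hGdef
  set Φ : (ℝ≥0 → ℝ) × (ℝ≥0 → ℝ) → ℝ≥0∞ := fun p =>
    ENNReal.ofReal (Real.exp (-(lam * G p.1))) *
      (ENNReal.ofReal (Real.exp (-(lam * (G (cat s p.1 p.2) - G p.1)))) *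
        ENNReal.ofReal (lam * (G (cat s p.1 p.2) - G p.1))) with hΦ
  set Ψ : (ℝ≥0 → ℝ) × (ℝ≥0 → ℝ) → ℝ≥0∞ := fun p =>
    ENNReal.ofReal (Real.exp (-(lam * G (cat s p.1 p.2)))) * ENNReal.ofReal (K * bb p.1) with hΨ
  have hG1 : Measurable (fun p : (ℝ≥0 → ℝ) × (ℝ≥0 → ℝ) => G p.1) := hGm.comp measurable_fst
  have hG2 : Measurable (fun p : (ℝ≥0 → ℝ) × (ℝ≥0 → ℝ) => G (cat s p.1 p.2)) :=
    hGm.comp (measurable_cat s)
  have hΦm : Measurable Φ := by
    rw [hΦ]
    have h1 : Measurable (fun p : (ℝ≥0 → ℝ) × (ℝ≥0 → ℝ) => (lam : ℝ) * (G (cat s p.1 p.2) - G p.1)) :=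
      (hG2.sub hG1).const_mul _
    exact ((Real.measurable_exp.comp (hG1.const_mul _).neg).ennreal_ofReal).mul
      (((Real.measurable_exp.comp h1.neg).ennreal_ofReal).mul h1.ennreal_ofReal)
  have hΨm : Measurable Ψ := by
    rw [hΨ]
    exact ((Real.measurable_exp.comp (hG2.const_mul _).neg).ennreal_ofReal).mul
      ((hbbm.comp measurable_fst).const_mul K).ennreal_ofReal
  -- nonnegativity of the increment
  have hG0 : ∀ x : ℝ≥0 → ℝ, Continuous x → x 0 = 0 → ∀ z : ℝ≥0 → ℝ, Continuous z → z 0 = 0 →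
      G (stp s x) ≤ G (cat s x z) := by
    intro x hx hx0 z hz hz0
    exact (hU Ω' P' W hW t s x z (|nrm (t - s) z| + 1) ht0 hst hx hx0 hz hz0 (by positivity)
      ((le_abs_self _).trans (by linarith))).1
  -- upper bound of the increment
  have hG3 : ∀ x : ℝ≥0 → ℝ, Continuous x → x 0 = 0 → ∀ z : ℝ≥0 → ℝ, Continuous z → z 0 = 0 →
      nrm (t - s) z ≤ R → G (cat s x z) - G (stp s x) ≤ (2 + CU) * q x := by
    intro x hx hx0 z hz hz0 hzR
    obtain ⟨-, h2, h3⟩ := hU Ω' P' W hW t s x z R ht0 hst hx hx0 hz hz0 hR hzR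
    have hqx := hq0 x hx hx0
    rcases hs with hs | hs
    · have h4 : R ≤ q x := by
        have h5 := hnn s x hx hx0
        have h6 : √((t : ℝ) - s) = √(t : ℝ) := by rw [hs]; simp
        simp only [hq]
        rw [h6, le_div_iff₀ hsqt]
        have : 0 ≤ R * (R + nrm s x) := by positivity
        nlinarith
      have h7 : G (cat s x z) ≤ G (stp s x) + 2 * R := h2
      have h8 : 0 ≤ CU * q x := by positivity
      linarith
    · have h4 : G (cat s x z) ≤ G (stp s x) + CU * q x := h3 hs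
      linarith
  -- the inner integral
  have hinner : ∀ x : ℝ≥0 → ℝ, Continuous x → x 0 = 0 →
      ∫⁻ ω₂, Φ (stp s x, shf s (fun r => X r ω₂)) ∂P ≤
        ∫⁻ ω₂, Ψ (stp s x, shf s (fun r => X r ω₂)) ∂P := by
    intro x hx hx0
    have hqx := hq0 x hx hx0
    set J : Ω → ℝ := fun ω => lam * (G (cat s x (shf s (fun r => X r ω))) - G (stp s x)) with hJ
    have hJm : Measurable J := by
      rw [hJ]
      refine Measurable.const_mul (Measurable.sub_const (hGm.comp ?_) _) _
      have h1 : Measurable (fun ω => ((x, shf s (fun r => X r ω)) : (ℝ≥0 → ℝ) × (ℝ≥0 → ℝ))) :=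
        measurable_const.prodMk ((measurable_shf s).comp hXm)
      exact (measurable_cat s).comp h1
    have hJ0 : ∀ᵐ ω ∂P, 0 ≤ J ω := by
      filter_upwards [hBMs.cont, hBMs.zero] with ω h1 h2
      exact mul_nonneg hlam'.le (sub_nonneg.2 (hG0 x hx hx0 _ h1 h2))
    have hB0 : 0 ≤ K * bb x := by
      simp only [hbb]
      positivity
    have hZ : ENNReal.ofReal (Real.exp (-(K * bb x))) ≤
        ∫⁻ ω, ENNReal.ofReal (Real.exp (-(J ω))) ∂P := by
      have h1 := (hC Ω P _ hBMs (t - s) R hR).1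
      set S : Set Ω := {ω | nrm (t - s) (fun u => shf s (fun r => X r ω) u) ≤ R} with hS
      have hSm : MeasurableSet S := by
        rw [hS]
        exact measurableSet_le ((hNm (t - s)).comp ((measurable_shf s).comp hXm)) measurable_const
      have h2 : ∫⁻ ω in S, ENNReal.ofReal (Real.exp (-(lam * ((2 + CU) * q x)))) ∂P ≤
          ∫⁻ ω in S, ENNReal.ofReal (Real.exp (-(J ω))) ∂P := by
        refine lintegral_mono_ae ?_
        rw [ae_restrict_iff' hSm]
        filter_upwards [hBMs.cont, hBMs.zero] with ω h1 h2 h3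
        refine ENNReal.ofReal_le_ofReal (Real.exp_le_exp.2 (neg_le_neg ?_))
        exact mul_le_mul_of_nonneg_left (hG3 x hx hx0 _ h1 h2 h3) hlam'.le
      rw [setLIntegral_const] at h2
      refine le_trans ?_ (h2.trans (setLIntegral_le_lintegral _ _))
      refine le_trans ?_ (mul_le_mul_right h1 _)
      rw [← ENNReal.ofReal_mul (Real.exp_nonneg _), ← Real.exp_add]
      refine ENNReal.ofReal_le_ofReal (Real.exp_le_exp.2 ?_)
      rw [hcoe]
      have h3 : 0 ≤ ((t : ℝ) - s) / R ^ 2 := by positivity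
      simp only [hbb, hK]
      have h4 : 0 ≤ lam * (2 + CU) * (1 + ((t : ℝ) - s) / R ^ 2) := by positivity
      have h5 : 0 ≤ CC * q x := by positivity
      nlinarith
    have hgib := hG Ω P J (K * bb x) hJm hJ0 hB0 hZ
    have e1 : ∫⁻ ω₂, Φ (stp s x, shf s (fun r => X r ω₂)) ∂P =
        ENNReal.ofReal (Real.exp (-(lam * G (stp s x)))) *
          ∫⁻ ω₂, ENNReal.ofReal (Real.exp (-(J ω₂))) * ENNReal.ofReal (J ω₂) ∂P := by
      rw [← lintegral_const_mul' _ _ ENNReal.ofReal_ne_top]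
      refine lintegral_congr fun ω => ?_
      simp only [hΦ, hJ, cat_stp]
    have e2 : ∫⁻ ω₂, Ψ (stp s x, shf s (fun r => X r ω₂)) ∂P =
        ENNReal.ofReal (Real.exp (-(lam * G (stp s x)))) *
          (ENNReal.ofReal (K * bb x) * ∫⁻ ω₂, ENNReal.ofReal (Real.exp (-(J ω₂))) ∂P) := by
      rw [← mul_assoc, ← lintegral_const_mul' _ _ (ENNReal.mul_ne_top ENNReal.ofReal_ne_top
        ENNReal.ofReal_ne_top)]
      refine lintegral_congr fun ω => ?_
      simp only [hΨ, hJ, cat_stp, hbbstp]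
      have e3 : ENNReal.ofReal (Real.exp (-(lam * G (cat s x (shf s fun r => X r ω))))) =
          ENNReal.ofReal (Real.exp (-(lam * G (stp s x)))) *
            ENNReal.ofReal (Real.exp (-(lam * (G (cat s x (shf s fun r => X r ω)) -
              G (stp s x))))) := by
        rw [← ENNReal.ofReal_mul (Real.exp_nonneg _), ← Real.exp_add]
        congr 2
        ring
      rw [e3]
      ring
    rw [e1, e2]
    exact mul_le_mul_right hgib _
  have hmid : ∫⁻ ω, Φ (stp s (fun r => X r ω), shf s (fun r => X r ω)) ∂P ≤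
      ∫⁻ ω, Ψ (stp s (fun r => X r ω), shf s (fun r => X r ω)) ∂P := by
    rw [hInd Φ hΦm, hInd Ψ hΨm]
    refine lintegral_mono_ae ?_
    filter_upwards [hX.cont, hX.zero] with ω h1 h2
    exact hinner _ h1 h2
  have hleft : ∫⁻ ω, wt lam P' W t (fun u => X u ω) * ENNReal.ofReal
        ((nrm s' (fun u => X u ω) - nrm s (fun u => X u ω)) *
          min 1 ((nrm s' (fun u => X u ω) - nrm s (fun u => X u ω) + √((t : ℝ) - s')) /
            √(t : ℝ))) ∂P ≤
      ENNReal.ofReal k * ∫⁻ ω, Φ (stp s (fun r => X r ω), shf s (fun r => X r ω)) ∂P := by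
    rw [← lintegral_const_mul' _ _ ENNReal.ofReal_ne_top]
    refine lintegral_mono_ae ?_
    filter_upwards [hX.cont, hX.zero] with ω h1 h2
    set x : ℝ≥0 → ℝ := fun u => X u ω with hx
    have h3 := hL Ω' P' W hW t s s' x (nrm s' x - nrm s x) ht0 hss' hs't h1 h2
      (sub_nonneg.2 (hmono x h1)) (by linarith)
    have e1 : wt lam P' W t x = ENNReal.ofReal (Real.exp (-(lam * G (stp s x)))) *
        ENNReal.ofReal (Real.exp (-(lam * (G x - G (stp s x))))) := by
      unfold wt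
      rw [← ENNReal.ofReal_mul (Real.exp_nonneg _), ← Real.exp_add]
      congr 2
      ring
    simp only [hΦ]
    rw [cat_self, e1, mul_assoc, mul_left_comm (ENNReal.ofReal k), mul_left_comm (ENNReal.ofReal k)]
    refine mul_le_mul_right (mul_le_mul_right ?_ _) _
    rw [← ENNReal.ofReal_mul hk0.le]
    refine ENNReal.ofReal_le_ofReal ?_
    have h4 : k * (lam * (G x - G (stp s x))) = (G x - G (stp s x)) / cL := by
      rw [hk]
      field_simp
    rw [h4, le_div_iff₀ hcL]
    have h5 : H P' W t (stp s x) + cL * ((nrm s' x - nrm s x) *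
      min 1 ((nrm s' x - nrm s x + √((t : ℝ) - s')) / √(t : ℝ))) ≤ H P' W t x := h3
    have h6 : G x = H P' W t x := rfl
    have h7 : G (stp s x) = H P' W t (stp s x) := rfl
    rw [h6, h7]
    linarith
  refine hleft.trans ((mul_le_mul_right hmid _).trans (le_of_eq ?_))
  rw [← lintegral_const_mul' _ _ ENNReal.ofReal_ne_top]
  refine lintegral_congr fun ω => ?_
  simp only [hΨ, cat_self, hbbstp]
  unfold wt
  rw [mul_left_comm, ← ENNReal.ofReal_mul hk0.le]
  congr 2
  simp only [hbb, hq]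
  ring

end Pool.Agent.H719R4.BT
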